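import Pool.Agent.MWGQ.Stmts

/-!
# Squad MWGQ (problem MP_23468a_al), row CLO: the closure properties, period `n`
-/

namespace Pool.Agent.MWGQ.H47

open Pool.Agent.Helper14_MV Pool.Agent.Helper2_MV Pool.Agent.MWGQ
open Pool.Agent.MWK (pre)
open Pool.Agent.MWGN (Nm WC WT Tau Ns nl sg nn N1 N2 K0 Kb Kc T2 gh gh_succ mem_gh)

theorem sub_gh (g h : ℕ → List ℕ) : ∀ N i, i < N → (g i ++ h i).Sublist (gh g h N) := by
  intro N
  induction N with
  | zero => intro i hi; omega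
  | succ N ih =>
    intro i hi
    rw [gh_succ]
    rcases Nat.lt_or_ge i N with h' | h'
    · exact (ih i h').trans (List.sublist_append_left _ _)
    · have : i = N := by omega
      subst this
      exact List.sublist_append_right _ _

theorem cnt {g h : ℕ → List ℕ} {N : ℕ} (p U V F X Y H : List ℕ)
    (hg : ∀ i < N, ∀ c ∈ g i, c ∈ H) (hh : ∀ i < N, ∀ c ∈ h i, 2 ≤ (h i).count c) :
    ∀ c ∈ gh g h N, 2 ≤ (p ++ (U ++ (V ++ (F ++ (X ++ (gh g h N ++ (Y ++ H))))))).count c := by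
  intro c hc
  simp only [List.count_append]
  obtain ⟨i, hi, h1⟩ := mem_gh.1 hc
  rcases h1 with h1 | h1
  · have a := List.count_pos_iff.2 hc
    have b := List.count_pos_iff.2 (hg i hi c h1)
    omega
  · have a := (sub_gh g h N i hi).count_le c
    rw [List.count_append] at a
    have b := hh i hi c h1
    omega

theorem count_pw (k : ℕ) (A : List ℕ) (c : ℕ) : (pw k A).count c = k * A.count c := by
  induction k with
  | zero => simp [pw]
  | succ k ih =>
    unfold pw at *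
    rw [List.replicate_succ, List.flatten_cons, List.count_append, ih]
    ring

theorem dbl (k : ℕ) (hk : 2 ≤ k) (A : List ℕ) : ∀ c ∈ pw k A, 2 ≤ (pw k A).count c := by
  intro c hc
  rw [count_pw]
  have h := List.count_pos_iff.2 hc
  rw [count_pw] at h
  have h1 : 1 ≤ A.count c := by
    rcases Nat.eq_zero_or_pos (A.count c) with h0 | h0
    · rw [h0] at h
      simp at h
    · exact h0
  nlinarith

theorem rs_congr {n : ℕ} {ν : Nm} {m nc : ℕ} {w w' : List ℕ} (h : ∀ c, w'.count c = w.count c)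
    (hr : Rs n ν m nc w) : Rs n ν m nc w' := by
  refine ⟨?_, ?_, ?_, ?_⟩
  · rw [h]
    exact hr.x
  · rw [h]
    exact hr.y
  · intro i hi
    rw [h]
    exact hr.l i hi
  · intro i hi
    rw [h]
    exact hr.c i hi

theorem rs2_congr {n m : ℕ} {w w' : List ℕ} (h : ∀ c, w'.count c = w.count c)
    (hr : Rs2 n m w) : Rs2 n m w' := ⟨rs_congr h hr.1, rs_congr h hr.2⟩

theorem clo (h1 : ForStmt) (h2 : MWGN.WcxStmt) (h3 : MWGN.SpxStmt) (h4 : Mc1Stmt) (h5 : Mc2Stmt)
    (h6 : Mc3Stmt) : CloStmt := by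
  intro n hn τ m hτ f p q
  obtain ⟨f1, f2⟩ := h1 n τ m hτ f
  -- the conditions without the special orders
  have K0x : ∀ p' X Y F G H U V : List ℕ, ((U = X ∧ V = Y) ∨ (U = Y ∧ V = X)) →
      ∀ w w' : List ℕ, w = p' ++ (U ++ (V ++ (F ++ (X ++ (G ++ (Y ++ H)))))) →
        w' = p' ++ (V ++ (U ++ (F ++ (X ++ (G ++ (Y ++ H)))))) → (∀ c ∈ G, 2 ≤ w.count c) →
          K0 τ m w → K0 τ m w' := by
    intro p' X Y F G H U V hUV w w' hw hw' hG hK
    have a := h2 N1 τ m m (by omega) p' X Y F G H U V hUV w w' hw hw' hG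
    have b := h2 (N2 m) τ m (m + 1) le_rfl p' X Y F G H U V hUV w w' hw hw' hG
    exact ⟨a.1 hK.c1, a.2 hK.t1, b.1 hK.c2, b.2 hK.t2⟩
  -- the form of the words, exchange of `f 0`, `f 1`
  have FA : ∀ o' : Bool, ∃ G H : List ℕ,
      p ++ (w0 n τ m true o').flatMap f ++ q =
        p ++ (f 0 ++ (f 1 ++ (f 2 ++ (f 0 ++ (G ++ (f 1 ++ H)))))) ∧
      p ++ (w0 n τ m false o').flatMap f ++ q =
        p ++ (f 1 ++ (f 0 ++ (f 2 ++ (f 0 ++ (G ++ (f 1 ++ H)))))) ∧
      (∀ c ∈ G, 2 ≤ (p ++ (w0 n τ m true o').flatMap f ++ q).count c) ∧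
      (∀ c ∈ G, 2 ≤ (p ++ (w0 n τ m false o').flatMap f ++ q).count c) := by
    intro o'
    obtain ⟨H, e, hf, -⟩ := f1 o'
    have eT := e true
    have eF := e false
    rw [if_pos rfl] at eT
    rw [if_neg (by simp)] at eF
    have eT' : p ++ (w0 n τ m true o').flatMap f ++ q = p ++ (f 0 ++ (f 1 ++ (f 2 ++ (f 0 ++
        (gh (fun i => if i < m then f (N1.L i) else if decide (i = m) = o' then f (N1.L m) else
          f (N1.L (m + 1)))
        (fun i => if i < m then pw (n + 1) (f (N1.C i)) else []) (m + 2) ++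
          (f 1 ++ (H ++ q))))))) := by
      rw [eT]
      simp only [List.append_assoc]
    have eF' : p ++ (w0 n τ m false o').flatMap f ++ q = p ++ (f 1 ++ (f 0 ++ (f 2 ++ (f 0 ++
        (gh (fun i => if i < m then f (N1.L i) else if decide (i = m) = o' then f (N1.L m) else
          f (N1.L (m + 1)))
        (fun i => if i < m then pw (n + 1) (f (N1.C i)) else []) (m + 2) ++
          (f 1 ++ (H ++ q))))))) := by
      rw [eF]
      simp only [List.append_assoc]
    have hgH : ∀ i < m + 2, ∀ c ∈ (fun i => if i < m then f (N1.L i) else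
        if decide (i = m) = o' then f (N1.L m) else f (N1.L (m + 1))) i, c ∈ H ++ q := by
      intro i hi c hc
      have key : ∀ j ≤ m + 1, c ∈ f (N1.L j) → c ∈ H ++ q := by
        intro j hj hc
        obtain ⟨H1, H2, rfl⟩ := hf j hj
        simp [hc]
      simp only at hc
      split_ifs at hc
      · exact key i (by omega) hc
      · exact key m (by omega) hc
      · exact key (m + 1) le_rfl hc
    have hhh : ∀ i < m + 2, ∀ c ∈ (fun i => if i < m then pw (n + 1) (f (N1.C i)) else []) i,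
        2 ≤ ((fun i => if i < m then pw (n + 1) (f (N1.C i)) else []) i).count c := by
      intro i hi c hc
      simp only at hc ⊢
      split_ifs at hc ⊢
      · exact dbl _ (by omega) _ c hc
      · simp at hc
    refine ⟨_, _, eT', eF', ?_, ?_⟩
    · rw [eT']
      exact cnt _ _ _ _ _ _ _ hgH hhh
    · rw [eF']
      exact cnt _ _ _ _ _ _ _ hgH hhh
  -- exchange of the two lights
  have FB : ∀ o : Bool, ∃ P F G H : List ℕ,
      p ++ (w0 n τ m o true).flatMap f ++ q =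
        P ++ (f (N1.L m) ++ (f (N1.L (m + 1)) ++ (F ++ (f (N1.L m) ++ (G ++
          (f (N1.L (m + 1)) ++ H)))))) ∧
      p ++ (w0 n τ m o false).flatMap f ++ q =
        P ++ (f (N1.L (m + 1)) ++ (f (N1.L m) ++ (F ++ (f (N1.L m) ++ (G ++
          (f (N1.L (m + 1)) ++ H)))))) ∧
      (∀ c ∈ G, 2 ≤ (p ++ (w0 n τ m o true).flatMap f ++ q).count c) ∧
      (∀ c ∈ G, 2 ≤ (p ++ (w0 n τ m o false).flatMap f ++ q).count c) := by
    intro o
    obtain ⟨P, F, H, e, hf, -⟩ := f2 o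
    have eT := e true
    have eF := e false
    rw [if_pos rfl] at eT
    rw [if_neg (by simp)] at eF
    have eT' : p ++ (w0 n τ m o true).flatMap f ++ q = (p ++ P) ++ (f (N1.L m) ++
        (f (N1.L (m + 1)) ++ (F ++ (f (N1.L m) ++ (gh (fun i => f ((N2 m).L i))
        (fun i => if i < m + 1 then pw (n + 1) (f ((N2 m).C i)) else []) (m + 2) ++
          (f (N1.L (m + 1)) ++ (H ++ q))))))) := by
      rw [eT]
      simp only [List.append_assoc]
    have eF' : p ++ (w0 n τ m o false).flatMap f ++ q = (p ++ P) ++ (f (N1.L (m + 1)) ++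
        (f (N1.L m) ++ (F ++ (f (N1.L m) ++ (gh (fun i => f ((N2 m).L i))
        (fun i => if i < m + 1 then pw (n + 1) (f ((N2 m).C i)) else []) (m + 2) ++
          (f (N1.L (m + 1)) ++ (H ++ q))))))) := by
      rw [eF]
      simp only [List.append_assoc]
    have hgH : ∀ i < m + 2, ∀ c ∈ (fun i => f ((N2 m).L i)) i, c ∈ H ++ q := by
      intro i hi c hc
      obtain ⟨H1, H2, rfl⟩ := hf i (by omega)
      simp only at hc
      simp [hc]
    have hhh : ∀ i < m + 2, ∀ c ∈ (fun i => if i < m + 1 then pw (n + 1) (f ((N2 m).C i))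
        else []) i,
        2 ≤ ((fun i => if i < m + 1 then pw (n + 1) (f ((N2 m).C i)) else []) i).count c := by
      intro i hi c hc
      simp only at hc ⊢
      split_ifs at hc ⊢
      · exact dbl _ (by omega) _ c hc
      · simp at hc
    refine ⟨_, _, _, _, eT', eF', ?_, ?_⟩
    · rw [eT']
      exact cnt _ _ _ _ _ _ _ hgH hhh
    · rw [eF']
      exact cnt _ _ _ _ _ _ _ hgH hhh
  have cntA : ∀ (o' : Bool) (c : ℕ), (p ++ (w0 n τ m false o').flatMap f ++ q).count c =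
      (p ++ (w0 n τ m true o').flatMap f ++ q).count c := by
    intro o' c
    obtain ⟨G, H, eT, eF, -, -⟩ := FA o'
    rw [eT, eF]
    simp only [List.count_append]
    omega
  have cntB : ∀ (o : Bool) (c : ℕ), (p ++ (w0 n τ m o false).flatMap f ++ q).count c =
      (p ++ (w0 n τ m o true).flatMap f ++ q).count c := by
    intro o c
    obtain ⟨P, F, G, H, eT, eF, -, -⟩ := FB o
    rw [eT, eF]
    simp only [List.count_append]
    omega
  have R1 : ∀ o' : Bool, KC n τ m (p ++ (w0 n τ m true o').flatMap f ++ q) ↔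
      KC n τ m (p ++ (w0 n τ m false o').flatMap f ++ q) := by
    intro o'
    obtain ⟨G, H, eT, eF, cT, cF⟩ := FA o'
    have S := h3 (N2 m) m (m + 1) p (f 0) (f 1) (f 2) G H _ _ eT eF cT
    constructor
    · rintro ⟨hK, hr⟩
      have hn := h4 n hn τ m hτ o' f p q hK
      exact ⟨⟨K0x p (f 0) (f 1) (f 2) G H (f 0) (f 1) (Or.inl ⟨rfl, rfl⟩) _ _ eT eF cT hK.1,
        S.1 hK.1.c2 hK.2 hn⟩, rs2_congr (cntA o') hr⟩
    · rintro ⟨hK, hr⟩
      exact ⟨⟨K0x p (f 0) (f 1) (f 2) G H (f 1) (f 0) (Or.inr ⟨rfl, rfl⟩) _ _ eF eT cF hK.1,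
        S.2 hK.1.c2 hK.2⟩, rs2_congr (fun c => (cntA o' c).symm) hr⟩
  refine ⟨R1, ?_, ?_⟩
  · intro o
    obtain ⟨P, F, G, H, eT, eF, cT, cF⟩ := FB o
    have S := h3 N1 m m P (f (N1.L m)) (f (N1.L (m + 1))) F G H _ _ eT eF cT
    constructor
    · rintro ⟨hK, hr⟩
      have hn := h6 n hn τ m hτ o f p q hK
      exact ⟨⟨K0x P (f (N1.L m)) (f (N1.L (m + 1))) F G H (f (N1.L m)) (f (N1.L (m + 1)))
        (Or.inl ⟨rfl, rfl⟩) _ _ eT eF cT hK.1, S.1 hK.1.c1 hK.2 hn⟩, rs2_congr (cntB o) hr⟩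
    · rintro ⟨hK, hr⟩
      exact ⟨⟨K0x P (f (N1.L m)) (f (N1.L (m + 1))) F G H (f (N1.L (m + 1))) (f (N1.L m))
        (Or.inr ⟨rfl, rfl⟩) _ _ eF eT cF hK.1, S.2 hK.1.c1 hK.2⟩,
        rs2_congr (fun c => (cntB o c).symm) hr⟩
  · obtain ⟨G, H, eT, eF, cT, cF⟩ := FA false
    have S := h3 N1 m m p (f 0) (f 1) (f 2) G H _ _ eT eF cT
    constructor
    · rintro ⟨⟨hb, hr⟩, hc⟩
      have hn := h5 n hn τ m hτ f p q hb hc.1
      exact ⟨⟨⟨K0x p (f 0) (f 1) (f 2) G H (f 0) (f 1) (Or.inl ⟨rfl, rfl⟩) _ _ eT eF cT hb.1,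
        S.1 hb.1.c1 hb.2 hn⟩, rs2_congr (cntA false) hr⟩, (R1 false).1 hc⟩
    · rintro ⟨⟨hb, hr⟩, hc⟩
      exact ⟨⟨⟨K0x p (f 0) (f 1) (f 2) G H (f 1) (f 0) (Or.inr ⟨rfl, rfl⟩) _ _ eF eT cF hb.1,
        S.2 hb.1.c1 hb.2⟩, rs2_congr (fun c => (cntA false c).symm) hr⟩, (R1 false).2 hc⟩

end Pool.Agent.MWGQ.H47
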