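import Pool.Agent.MWGQ.StmtsC
import Pool.Agent.Helper43_MWGN.FOF

/-!
# MWGQ, row FOF: form of the instances (hull pentagon, period `n`)
-/

namespace Pool.Agent.MWGQ.H47

open Pool.Agent.Helper14_MV Pool.Agent.Helper2_MV Pool.Agent.MWGQ
open Pool.Agent.MWK (pre)
open Pool.Agent.MWGN (Nm WC WT Tau Ns nl sg nn gh gh_succ Ins WR Nr nr NF tw KF Kx Ky)
open Pool.Agent.MWGN.H43 (ins_refl ins_left ins_one ins_nil ins_gh gh_first gh_congr RR0 mem_tw
  tail_fac sum1 sum2)

theorem rep_map (f : ℕ → List ℕ) (k c : ℕ) : (List.replicate k c).flatMap f = pw k (f c) := by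
  induction k with
  | zero => rfl
  | succ k ih =>
    unfold pw at *
    rw [List.replicate_succ, List.flatMap_cons, ih, List.replicate_succ, List.flatten_cons]

theorem pw_two (n : ℕ) (u : List ℕ) : pw (2 * n) u = pw n u ++ pw n u := by
  unfold pw
  rw [← List.flatten_append, List.replicate_append_replicate, two_mul]

theorem rep2_map (f : ℕ → List ℕ) (n c : ℕ) :
    (List.replicate (2 * n) c).flatMap f = pw n (f c) ++ pw n (f c) := by
  rw [rep_map, pw_two]

theorem gp_map (n : ℕ) (f : ℕ → List ℕ) (u v : Bool) (i : ℕ) :
    (gp n u v i).flatMap f = dp n f u v i := by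
  unfold gp dp
  rw [List.flatMap_append, List.flatMap_append, rep_map]
  cases u <;> cases v <;> simp [rep2_map]

theorem mid_map (n : ℕ) (f : ℕ → List ℕ) (u v : Bool) (r : ℕ) :
    ((List.range r).flatMap (fun i => NF.L (i + 1) :: gp n u v i)).flatMap f =
      gh (fun i => f (NF.L (i + 1))) (fun i => dp n f u v i) r := by
  induction r with
  | zero => rfl
  | succ r ih =>
    rw [gh_succ, ← ih, List.range_succ, List.flatMap_append, List.flatMap_append,
      List.flatMap_singleton, List.flatMap_cons, gp_map]

theorem wf_map (n : ℕ) (f : ℕ → List ℕ) (τ : List ℕ) (r : ℕ) (u v : Bool) :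
    (wf n τ r u v).flatMap f =
    pw n (f 0) ++ (pw n (f 0) ++ (f (NF.L 0) ++ (pw n (f 1) ++ (pw n (f 1) ++
      (gh (fun i => f (NF.L (i + 1))) (fun i => dp n f u v i) r ++ (f (NF.L (r + 1)) ++
        (pw n (f 0) ++ (pw n (f 0) ++ (f (NF.L (r + 2)) ++ (pw n (f 1) ++ (pw n (f 1) ++
          RR0 f τ r))))))))))) := by
  unfold wf RR0
  rw [← mid_map]
  simp only [List.flatMap_cons, List.flatMap_append, rep2_map, List.append_assoc]

/-- **FOF** -/
theorem fof : FofStmt := by
  intro n τ r hr hτ f
  refine ⟨RR0 f τ r, fun i hi => tail_fac (mem_tw hr hτ hi), ?_, ?_, ?_, ?_⟩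
  · intro a s
    rw [wf_map, gh_succ, gh_succ]
    have e : gh (fun i => f (NF.L (i + 1))) (fun i => if i < r then dp n f a s i else
        if i = r then pw n (f 0) ++ pw n (f 0) else []) r =
        gh (fun i => f (NF.L (i + 1))) (fun i => dp n f a s i) r :=
      gh_congr (fun _ _ => rfl) (fun i hi => if_pos hi)
    rw [e, if_neg (lt_irrefl r), if_pos rfl, if_neg (by omega : ¬ r + 1 < r),
      if_neg (by omega : ¬ r + 1 = r)]
    simp only [List.append_assoc, List.nil_append]
  · intro a s
    rw [wf_map, gh_succ, gh_first]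
    have e : gh (fun i => f (NF.L (i + 1))) (fun i => if i + 1 = 0 then pw n (f 1) ++ pw n (f 1)
        else if i + 1 ≤ r then dp n f a s (i + 1 - 1) else []) r =
        gh (fun i => f (NF.L (i + 1))) (fun i => dp n f a s i) r := by
      refine gh_congr (fun _ _ => rfl) (fun i hi => ?_)
      rw [if_neg (by omega), if_pos (by omega), Nat.add_sub_cancel]
    rw [e, if_pos rfl, if_neg (by omega : ¬ r + 1 = 0), if_neg (by omega : ¬ r + 1 ≤ r)]
    simp only [List.append_assoc, List.nil_append]
  · intro s
    have h := ins_gh (E := pw n (f 1) ++ pw n (f 1)) (fun i => f (NF.L (i + 1)))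
      (fun i => if i < r then dp n f false s i else
        if i = r then pw n (f 0) ++ pw n (f 0) else [])
      (fun i => if i < r then dp n f true s i else
        if i = r then pw n (f 0) ++ pw n (f 0) else [])
      (fun i => if i < r then 1 else 0) (r + 2) ?_
    · rw [sum1] at h
      exact h
    · intro i _
      show Ins (pw n (f 1) ++ pw n (f 1))
        (if i < r then dp n f false s i else if i = r then pw n (f 0) ++ pw n (f 0) else [])
        (if i < r then dp n f true s i else if i = r then pw n (f 0) ++ pw n (f 0) else [])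
        (if i < r then 1 else 0)
      by_cases hi : i < r
      · rw [if_pos hi, if_pos hi, if_pos hi]
        unfold dp
        refine ins_left _ ?_
        exact ins_one _ _
      · rw [if_neg hi, if_neg hi, if_neg hi]
        exact ins_refl _ _
  · intro a
    have h := ins_gh (E := pw n (f 0) ++ pw n (f 0)) (fun i => f (NF.L i))
      (fun i => if i = 0 then pw n (f 1) ++ pw n (f 1) else
        if i ≤ r then dp n f a false (i - 1) else [])
      (fun i => if i = 0 then pw n (f 1) ++ pw n (f 1) else
        if i ≤ r then dp n f a true (i - 1) else [])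
      (fun i => if i = 0 then 0 else if i ≤ r then 1 else 0) (r + 2) ?_
    · rw [sum2] at h
      exact h
    · intro i _
      show Ins (pw n (f 0) ++ pw n (f 0))
        (if i = 0 then pw n (f 1) ++ pw n (f 1) else
          if i ≤ r then dp n f a false (i - 1) else [])
        (if i = 0 then pw n (f 1) ++ pw n (f 1) else
          if i ≤ r then dp n f a true (i - 1) else [])
        (if i = 0 then 0 else if i ≤ r then 1 else 0)
      by_cases h0 : i = 0
      · rw [if_pos h0, if_pos h0, if_pos h0]
        exact ins_refl _ _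
      · rw [if_neg h0, if_neg h0, if_neg h0]
        by_cases hi : i ≤ r
        · rw [if_pos hi, if_pos hi, if_pos hi]
          unfold dp
          refine ins_left _ (ins_left _ ?_)
          exact ins_nil _
        · rw [if_neg hi, if_neg hi, if_neg hi]
          exact ins_refl _ _

end Pool.Agent.MWGQ.H47
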